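import Pool.Agent.H66.ER2.Lib

/-!
# Row GFL of board er2_modules: symmetries of the context
-/

set_option autoImplicit false
set_option linter.unusedVariables false

namespace Pool.Agent.H2.ER2

open Pool.Agent.H48.ER Pool.Agent.H52.ER2 Pool.Agent.H66.ER2

theorem pf_GFL (hREV : T_REV) : T_GFL := by
  intro V G v k z l r n m a1 x b1 y a2 b2 a3 b3 L R P Q h
  obtain ⟨hso, hW, hA, hB⟩ := hREV V G v k z h.so
  have hty : ∀ c, Ty0 G k z c → Ty0 G k (fun i => z (k - i)) c := by
    intro c hc w hw
    rw [hW] at hw
    exact hc w hw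
  refine ⟨?_, ?_, ?_⟩
  · exact
    { cls := h.cls
      nco := h.nco
      f1 := h.f1
      so := hso
      sp := h.sp.flip
      hx := by rw [hA]; exact h.hy
      hy := by rw [hB]; exact h.hx
      nv := by rw [vS_flip]; exact h.nv
      t0 := by
        intro w hw hv h1 h2
        rw [vS_flip] at hw
        rw [hA] at h1
        rw [hB] at h2
        exact hty w (h.t0 w hw hv h2 h1) }
  · exact
    { cls := h.cls
      nco := h.nco
      f1 := h.f1
      so := h.so
      sp := h.sp.swap
      hx := h.hx
      hy := h.hy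
      nv := by rw [vS_swap]; exact h.nv
      t0 := by
        intro w hw hv h1 h2
        rw [vS_swap] at hw
        exact h.t0 w hw hv h1 h2 }
  · intro hg
    refine ⟨⟨?_, ?_⟩, ⟨?_, ?_⟩⟩
    · intro w hw h1
      rw [vS_flip] at hw
      rw [hA] at h1
      exact hg.2 w hw h1
    · intro w hw h1
      rw [vS_flip] at hw
      rw [hB] at h1
      exact hg.1 w hw h1
    · intro w hw h1
      rw [vS_swap] at hw
      exact hg.1 w hw h1
    · intro w hw h1
      rw [vS_swap] at hw
      exact hg.2 w hw h1

end Pool.Agent.H2.ER2
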